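import Pool.Agent.Helper89.PU.Iso

set_option autoImplicit false

/-!
PU: Harder's theorem in matrix form (half-integral weights): a unimodular symmetric matrix over
`k[Y]` is congruent to a matrix with a zero on the diagonal or to a constant matrix.
-/

namespace Pool.Agent.Helper89.PU

open Polynomial Matrix

/-- degree bounds with half-integral weights -/
def Adm2 {k : Type*} [Field k] {n : ℕ} (S : Matrix (Fin n) (Fin n) k[X]) (a : Fin n → ℕ) : Prop :=
  ∀ i j, 2 * (S i j).natDegree ≤ a i + a j

/-- the reflected matrix -/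
noncomputable def Refl2 {k : Type*} [Field k] {n : ℕ} (S : Matrix (Fin n) (Fin n) k[X])
    (a : Fin n → ℕ) : Matrix (Fin n) (Fin n) k[X] :=
  Matrix.of fun i j => reflect (a i + a j) (expand k 2 (S i j))

theorem Refl2_det {k : Type*} [Field k] {n : ℕ} {S : Matrix (Fin n) (Fin n) k[X]}
    {a : Fin n → ℕ} (hb : Adm2 S a) {c : k} (hc : S.det = C c) :
    (Refl2 S a).det = C c * X ^ (2 * ∑ i, a i) := by
  have h1 : Adm (S.map (expand k 2)) a := by
    intro i j
    rw [Matrix.map_apply, natDegree_expand, mul_comm]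
    exact hb i j
  have h2 : (S.map (expand k 2)).det = C c := by
    have := (AlgHom.map_det (expand k 2) S).symm
    rw [hc, expand_C] at this
    exact this
  have h3 := Refl_det h1 h2
  exact h3

theorem Refl2_coeff {k : Type*} [Field k] {n : ℕ} (S : Matrix (Fin n) (Fin n) k[X])
    (a : Fin n → ℕ) (i j : Fin n) :
    (Refl2 S a i j).coeff 0 = if 2 ∣ a i + a j then (S i j).coeff ((a i + a j) / 2) else 0 := by
  rw [Refl2, Matrix.of_apply, coeff_reflect, revAt_le (Nat.zero_le _), Nat.sub_zero,
    coeff_expand (by norm_num)]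

/-- the base change matrix -/
noncomputable def Fmt {k : Type*} [Field k] {n : ℕ} (v : Fin n → k) (e : Fin n → ℕ) (i0 : Fin n) :
    Matrix (Fin n) (Fin n) k[X] :=
  (1 : Matrix (Fin n) (Fin n) k[X]).updateCol i0 (fun l => C (v l) * X ^ (e l))

theorem Fmt_det {k : Type*} [Field k] {n : ℕ} (v : Fin n → k) (e : Fin n → ℕ) (i0 : Fin n)
    (he : e i0 = 0) : (Fmt v e i0).det = C (v i0) := by
  rw [Fmt, ← Matrix.cramer_apply, Matrix.cramer_one]
  simp [he]

theorem Fmt_col {k : Type*} [Field k] {n : ℕ} (v : Fin n → k) (e : Fin n → ℕ) (i0 i : Fin n) :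
    (fun l => Fmt v e i0 l i) = if i = i0 then fun l => C (v l) * X ^ (e l) else Pi.single i 1 := by
  ext1 l
  rw [Fmt, Matrix.updateCol_apply]
  by_cases hi : i = i0
  · rw [if_pos hi, if_pos hi]
  · rw [if_neg hi, if_neg hi, Matrix.one_apply, Pi.single_apply]

theorem Fmt_entry {k : Type*} [Field k] {n : ℕ} (S : Matrix (Fin n) (Fin n) k[X]) (v : Fin n → k)
    (e : Fin n → ℕ) (i0 i j : Fin n) :
    ((Fmt v e i0)ᵀ * S * Fmt v e i0) i j =
      (fun l => Fmt v e i0 l i) ⬝ᵥ (S *ᵥ fun l => Fmt v e i0 l j) := by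
  rw [Matrix.mul_assoc, Matrix.mul_apply, dotProduct]
  refine Finset.sum_congr rfl fun l _ => ?_
  rfl

theorem raise2 {k : Type*} [Field k] {n : ℕ} {S : Matrix (Fin n) (Fin n) k[X]} (hS : S.IsSymm)
    {a : Fin n → ℕ} (hb : Adm2 S a) (v : Fin n → k)
    (h0 : (Refl2 S a).map (fun p => p.coeff 0) *ᵥ v = 0) (i0 : Fin n)
    (hpar : ∀ j, v j ≠ 0 → (a i0 - a j) % 2 = 0)
    (hmax : ∀ j, v j ≠ 0 → a j ≤ a i0) (hpos : 1 ≤ a i0) :
    Adm2 ((Fmt v (fun j => (a i0 - a j) / 2) i0)ᵀ * S * Fmt v (fun j => (a i0 - a j) / 2) i0)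
      (Function.update a i0 (a i0 - 1)) := by
  set e : Fin n → ℕ := fun j => (a i0 - a j) / 2 with he
  have hsym : ((Fmt v e i0)ᵀ * S * Fmt v e i0).IsSymm := by
    rw [Matrix.IsSymm, Matrix.transpose_mul, Matrix.transpose_mul, Matrix.transpose_transpose,
      hS.eq, Matrix.mul_assoc]
  have hej : ∀ j, v j ≠ 0 → 2 * e j + a j = a i0 := by
    intro j hj
    have h1 := hpar j hj
    have h2 := hmax j hj
    simp only [he]
    omega
  have he1 : ∀ i, i ≠ i0 → (fun l => Fmt v e i0 l i) = Pi.single i 1 := fun i hi => by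
    rw [Fmt_col, if_neg hi]
  have he2 : (fun l => Fmt v e i0 l i0) = fun l => C (v l) * X ^ (e l) := by
    rw [Fmt_col, if_pos rfl]
  -- entries of `S` times the new vector
  have hterm : ∀ i m, 2 * (S i m * (C (v m) * X ^ (e m))).natDegree ≤ a i + a i0 ∧
      (2 ∣ a i + a i0 → (S i m * (C (v m) * X ^ (e m))).coeff ((a i + a i0) / 2) =
        (Refl2 S a i m).coeff 0 * v m) := by
    intro i m
    by_cases hm : v m = 0
    · rw [hm]
      simp
    · have hle := hej m hm
      have hre : S i m * (C (v m) * X ^ (e m)) = C (v m) * (X ^ (e m) * S i m) := by ring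
      rw [hre]
      constructor
      · have h1 : (C (v m) * (X ^ (e m) * S i m)).natDegree ≤ e m + (S i m).natDegree := by
          refine (natDegree_C_mul_le _ _).trans ?_
          refine (natDegree_mul_le).trans ?_
          rw [natDegree_X_pow]
        have := hb i m
        omega
      · intro hdiv
        rw [coeff_C_mul, Refl2_coeff, if_pos (by omega)]
        have h2 : (a i + a i0) / 2 = (a i + a m) / 2 + e m := by omega
        rw [h2, coeff_X_pow_mul, mul_comm]
  have hker : ∀ i, ∑ m, (Refl2 S a i m).coeff 0 * v m = 0 := by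
    intro i
    have := congrFun h0 i
    rw [Matrix.mulVec, dotProduct] at this
    exact this
  have hvec : ∀ i, 2 * ((S *ᵥ fun l => C (v l) * X ^ (e l)) i).natDegree ≤ a i + (a i0 - 1) ∧
      (2 ∣ a i + a i0 → ((S *ᵥ fun l => C (v l) * X ^ (e l)) i).coeff ((a i + a i0) / 2) = 0) := by
    intro i
    have hle : ((S *ᵥ fun l => C (v l) * X ^ (e l)) i).natDegree ≤ (a i + a i0) / 2 := by
      rw [Matrix.mulVec, dotProduct]
      refine natDegree_sum_le_of_forall_le _ _ fun m _ => ?_
      have := (hterm i m).1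
      omega
    have hco : 2 ∣ a i + a i0 →
        ((S *ᵥ fun l => C (v l) * X ^ (e l)) i).coeff ((a i + a i0) / 2) = 0 := by
      intro hdiv
      rw [Matrix.mulVec, dotProduct, finsetSum_coeff, ← hker i]
      exact Finset.sum_congr rfl fun m _ => (hterm i m).2 hdiv
    refine ⟨?_, hco⟩
    by_cases hdiv : 2 ∣ a i + a i0
    · have := natDegree_le_pred hle (hco hdiv)
      omega
    · omega
  have hoff : ∀ i, i ≠ i0 → 2 * (((Fmt v e i0)ᵀ * S * Fmt v e i0) i i0).natDegree ≤
      a i + (a i0 - 1) := by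
    intro i hi
    rw [Fmt_entry, he1 i hi, he2, single_dotProduct, one_mul]
    exact (hvec i).1
  have hdiag : 2 * (((Fmt v e i0)ᵀ * S * Fmt v e i0) i0 i0).natDegree ≤
      (a i0 - 1) + (a i0 - 1) := by
    rw [Fmt_entry, he2]
    set w := S *ᵥ fun l => C (v l) * X ^ (e l) with hw
    have h1 : ∀ l, (C (v l) * X ^ (e l) * w l).natDegree ≤ a i0 ∧
        (C (v l) * X ^ (e l) * w l).coeff (a i0) = 0 := by
      intro l
      by_cases hl : v l = 0
      · rw [hl]
        simp
      · have h2 := hej l hl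
        have h3 := hvec l
        have h4 : (C (v l) * X ^ (e l) * w l).natDegree ≤ e l + (w l).natDegree := by
          rw [mul_assoc]
          refine (natDegree_C_mul_le _ _).trans ?_
          refine (natDegree_mul_le).trans ?_
          rw [natDegree_X_pow]
        refine ⟨by omega, ?_⟩
        rw [mul_assoc, coeff_C_mul]
        have h5 : a i0 = (a l + a i0) / 2 + e l := by omega
        conv_lhs => rw [h5, coeff_X_pow_mul]
        rw [h3.2 (by omega), mul_zero]
    have h2 : (((fun l => C (v l) * X ^ (e l)) ⬝ᵥ w)).natDegree ≤ a i0 - 1 := by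
      apply natDegree_le_pred
      · rw [dotProduct]
        exact natDegree_sum_le_of_forall_le _ _ fun l _ => (h1 l).1
      · rw [dotProduct, finsetSum_coeff]
        exact Finset.sum_eq_zero fun l _ => (h1 l).2
    omega
  intro i j
  by_cases hi : i = i0
  · by_cases hj : j = i0
    · subst hi
      subst hj
      rw [Function.update_self]
      exact hdiag
    · rw [hi, Function.update_self, Function.update_of_ne hj, ← hsym.apply, add_comm]
      exact hoff j hj
  · by_cases hj : j = i0
    · rw [hj, Function.update_self, Function.update_of_ne hi]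
      exact hoff i hi
    · rw [Function.update_of_ne hi, Function.update_of_ne hj, Fmt_entry, he1 i hi, he1 j hj,
        single_dotProduct, one_mul, Matrix.mulVec_single_one]
      exact hb i j

theorem harder_aux {k : Type*} [Field k] {n : ℕ} (N : ℕ) :
    ∀ (S : Matrix (Fin n) (Fin n) k[X]) (a : Fin n → ℕ), S.IsSymm → Adm2 S a → ∑ i, a i = N →
    (∃ c : k, c ≠ 0 ∧ S.det = C c) → ∃ P : Matrix (Fin n) (Fin n) k[X], IsUnit P.det ∧
      ((∃ i, (Pᵀ * S * P) i i = 0) ∨ ∃ G0 : Matrix (Fin n) (Fin n) k, Pᵀ * S * P = G0.map C) := by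
  induction N using Nat.strong_induction_on with
  | _ N ih =>
  classical
  intro S a hS hb hN ⟨c, hc0, hc⟩
  by_cases hN0 : N = 0
  · -- constant matrix
    refine ⟨1, by simp, Or.inr ⟨S.map (fun p => p.coeff 0), ?_⟩⟩
    rw [Matrix.transpose_one, Matrix.one_mul, Matrix.mul_one]
    ext1 i j
    rw [Matrix.map_apply, Matrix.map_apply]
    have h1 : ∀ i, a i = 0 := by
      intro i
      rw [hN0] at hN
      exact (Finset.sum_eq_zero_iff.1 hN) i (Finset.mem_univ i)
    have h2 := hb i j
    rw [h1 i, h1 j] at h2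
    exact eq_C_of_natDegree_le_zero (by omega)
  · have hdet : ((Refl2 S a).map (fun p => p.coeff 0)).det = 0 := by
      have h1 : ((Refl2 S a).map (fun p => p.coeff 0)).det = (Refl2 S a).det.coeff 0 := by
        have := RingHom.map_det (constantCoeff : k[X] →+* k) (Refl2 S a)
        rw [constantCoeff_apply] at this
        rw [this]
        rfl
      rw [h1, Refl2_det hb hc, hN, coeff_C_mul, coeff_X_pow, if_neg (by omega), mul_zero]
    obtain ⟨w, hw0, hw⟩ := Matrix.exists_mulVec_eq_zero_iff.2 hdet
    -- parity components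
    have hcomp : ∀ r : ℕ, (Refl2 S a).map (fun p => p.coeff 0) *ᵥ
        (fun j => if a j % 2 = r % 2 then w j else 0) = 0 := by
      intro r
      ext i
      rw [Matrix.mulVec, dotProduct]
      simp only [Matrix.map_apply, Pi.zero_apply]
      by_cases hi : a i % 2 = r % 2
      · have h1 := congrFun hw i
        rw [Matrix.mulVec, dotProduct] at h1
        simp only [Matrix.map_apply, Pi.zero_apply] at h1
        rw [← h1]
        refine Finset.sum_congr rfl fun j _ => ?_
        by_cases hj : a j % 2 = r % 2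
        · rw [if_pos hj]
        · rw [if_neg hj, Refl2_coeff, if_neg (by omega)]
          simp
      · refine Finset.sum_eq_zero fun j _ => ?_
        by_cases hj : a j % 2 = r % 2
        · rw [Refl2_coeff, if_neg (by omega), zero_mul]
        · rw [if_neg hj, mul_zero]
    obtain ⟨j0, hj0⟩ : ∃ j, w j ≠ 0 := by
      by_contra h
      push Not at h
      exact hw0 (funext h)
    set v : Fin n → k := fun j => if a j % 2 = a j0 % 2 then w j else 0 with hv
    have hv1 := hcomp (a j0)
    rw [← hv] at hv1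
    have hvj0 : v j0 ≠ 0 := by
      simp only [hv, if_true]
      exact hj0
    have hpar0 : ∀ j, v j ≠ 0 → a j % 2 = a j0 % 2 := by
      intro j hj
      by_contra h
      exact hj (by simp only [hv, if_neg h])
    obtain ⟨i0, hi0, hmax⟩ := Finset.exists_max_image (Finset.univ.filter fun j => v j ≠ 0) a
      ⟨j0, Finset.mem_filter.2 ⟨Finset.mem_univ _, hvj0⟩⟩
    have hvi : v i0 ≠ 0 := (Finset.mem_filter.1 hi0).2
    have hmax' : ∀ j, v j ≠ 0 → a j ≤ a i0 := fun j hj =>
      hmax j (Finset.mem_filter.2 ⟨Finset.mem_univ j, hj⟩)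
    have hunit : IsUnit (Fmt v (fun j => (a i0 - a j) / 2) i0).det := by
      rw [Fmt_det _ _ _ (by simp)]
      exact isUnit_C.2 (isUnit_iff_ne_zero.2 hvi)
    by_cases ha0 : a i0 = 0
    · -- isotropic constant vector
      refine ⟨Fmt v (fun j => (a i0 - a j) / 2) i0, hunit, Or.inl ⟨i0, ?_⟩⟩
      have hv3 : ∀ j, a j ≠ 0 → v j = 0 := by
        intro j hj
        by_contra h
        have := hmax' j h
        omega
      rw [Fmt_entry, Fmt_col, if_pos rfl]
      have hX : (fun l => C (v l) * (X : k[X]) ^ ((a i0 - a l) / 2)) = fun l => C (v l) := by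
        ext1 l
        rw [ha0]
        simp
      rw [hX]
      have hbb : ∀ i j, a i = 0 → a j = 0 → (S i j).natDegree ≤ 0 := by
        intro i j h1 h2
        have := hb i j
        omega
      have h7 : (fun i => C (v i)) ⬝ᵥ (S *ᵥ fun i => C (v i)) =
          C (v ⬝ᵥ (S.map (fun p => p.coeff 0) *ᵥ v)) := by
        simp only [dotProduct, Matrix.mulVec, map_sum, map_mul, Matrix.map_apply]
        refine Finset.sum_congr rfl fun i _ => ?_
        rw [Finset.mul_sum, Finset.mul_sum]
        refine Finset.sum_congr rfl fun j _ => ?_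
        by_cases hi : a i = 0
        · by_cases hj : a j = 0
          · rw [← eq_C_of_natDegree_le_zero (hbb i j hi hj)]
          · rw [hv3 j hj]
            simp
        · rw [hv3 i hi]
          simp
      have h5 : v ⬝ᵥ (S.map (fun p => p.coeff 0) *ᵥ v) =
            v ⬝ᵥ ((Refl2 S a).map (fun p => p.coeff 0) *ᵥ v) := by
        simp only [dotProduct, Matrix.mulVec, Matrix.map_apply]
        refine Finset.sum_congr rfl fun l _ => ?_
        by_cases hl : a l = 0
        · congr 1
          refine Finset.sum_congr rfl fun m _ => ?_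
          by_cases hm : a m = 0
          · rw [Refl2_coeff, hl, hm]
            simp
          · rw [hv3 m hm, mul_zero, mul_zero]
        · rw [hv3 l hl, zero_mul, zero_mul]
      rw [h7, h5, hv1, dotProduct_zero, C_0]
    · have hr := raise2 hS hb v hv1 i0 (fun j hj => by
        have h1 := hpar0 j hj
        have h2 := hpar0 i0 hvi
        have h3 := hmax' j hj
        omega) hmax' (Nat.one_le_iff_ne_zero.2 ha0)
      set E := Fmt v (fun j => (a i0 - a j) / 2) i0 with hE
      have hsym : (Eᵀ * S * E).IsSymm := by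
        rw [Matrix.IsSymm, Matrix.transpose_mul, Matrix.transpose_mul, Matrix.transpose_transpose,
          hS.eq, Matrix.mul_assoc]
      have hsum : ∑ i, Function.update a i0 (a i0 - 1) i = N - 1 := by
        rw [Finset.sum_update_of_mem (Finset.mem_univ i0)]
        have h7 := Finset.sum_erase_add Finset.univ a (Finset.mem_univ i0)
        rw [← hN, ← h7, Finset.sdiff_singleton_eq_erase]
        omega
      obtain ⟨P, hP, hP2⟩ := ih (N - 1) (by omega) _ _ hsym hr hsum
        ⟨v i0 * c * v i0, mul_ne_zero (mul_ne_zero hvi hc0) hvi, by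
          rw [Matrix.det_mul, Matrix.det_mul, Matrix.det_transpose, hE, Fmt_det _ _ _ (by simp),
            hc, C_mul, C_mul]⟩
      have hass : (E * P)ᵀ * S * (E * P) = Pᵀ * (Eᵀ * S * E) * P := by
        rw [Matrix.transpose_mul]
        simp only [Matrix.mul_assoc]
      refine ⟨E * P, ?_, ?_⟩
      · rw [Matrix.det_mul]
        exact hunit.mul hP
      · rw [hass]
        exact hP2

theorem harder {k : Type*} [Field k] (n : ℕ) (G : Matrix (Fin n) (Fin n) k[X])
    (hG : G.IsSymm) (hdet : IsUnit G.det) :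
    ∃ P : Matrix (Fin n) (Fin n) k[X], IsUnit P.det ∧
      ((∃ i, (Pᵀ * G * P) i i = 0) ∨ ∃ G0 : Matrix (Fin n) (Fin n) k, Pᵀ * G * P = G0.map C) := by
  obtain ⟨c, hc, hc'⟩ := Polynomial.isUnit_iff.1 hdet
  refine harder_aux _ G (fun _ => ∑ i, ∑ j, (G i j).natDegree) hG ?_ rfl
    ⟨c, hc.ne_zero, hc'.symm⟩
  intro i j
  have h1 : (G i j).natDegree ≤ ∑ j, (G i j).natDegree :=
    Finset.single_le_sum (f := fun j => (G i j).natDegree) (fun _ _ => Nat.zero_le _)
      (Finset.mem_univ j)
  have h2 : ∑ j, (G i j).natDegree ≤ ∑ i, ∑ j, (G i j).natDegree :=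
    Finset.single_le_sum (f := fun i => ∑ j, (G i j).natDegree) (fun _ _ => Nat.zero_le _)
      (Finset.mem_univ i)
  have := h1.trans h2
  change 2 * (G i j).natDegree ≤ (∑ i, ∑ j, (G i j).natDegree) + ∑ i, ∑ j, (G i j).natDegree
  omega

end Pool.Agent.Helper89.PU
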