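import Mathlib

set_option autoImplicit false

/-!
PU (purity over `C(x)[y]`): the linear algebra lemma behind the reduction of unimodular lattices.
-/

namespace Pool.Agent.Helper89.PU

open Polynomial Matrix

/-- every ternary quadratic form over `k` is isotropic -/
def Tsen3 (k : Type*) [Field k] : Prop :=
  ∀ B : Matrix (Fin 3) (Fin 3) k, ∃ v : Fin 3 → k, v ≠ 0 ∧ v ⬝ᵥ (B *ᵥ v) = 0

/-- ternary forms on any three independent vectors -/
theorem Tsen3.on_vectors {k : Type*} [Field k] (hk : Tsen3 k) {n : ℕ} (B : Matrix (Fin n) (Fin n) k)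
    (w : Fin 3 → (Fin n → k)) :
    ∃ x : Fin 3 → k, x ≠ 0 ∧ (∑ s, x s • w s) ⬝ᵥ (B *ᵥ (∑ s, x s • w s)) = 0 := by
  obtain ⟨x, hx0, hx⟩ := hk (Matrix.of fun s t => w s ⬝ᵥ (B *ᵥ w t))
  refine ⟨x, hx0, ?_⟩
  rw [← hx]
  have h1 : (∑ s, x s • w s) ⬝ᵥ (B *ᵥ (∑ s, x s • w s)) =
      ∑ s, ∑ t, x s * (w s ⬝ᵥ (B *ᵥ w t)) * x t := by
    rw [sum_dotProduct]
    refine Finset.sum_congr rfl fun s _ => ?_
    rw [Matrix.mulVec_sum, dotProduct_sum]
    refine Finset.sum_congr rfl fun t _ => ?_
    rw [Matrix.mulVec_smul, smul_dotProduct, dotProduct_smul, smul_eq_mul, smul_eq_mul]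
    ring
  rw [h1]
  simp only [dotProduct, Matrix.mulVec, Matrix.of_apply]
  refine Finset.sum_congr rfl fun s _ => ?_
  rw [Finset.mul_sum]
  refine Finset.sum_congr rfl fun t _ => ?_
  ring

private theorem coeff_C_mul_C {k : Type*} [Field k] (a b : k) (p : k[X]) (m : ℕ) :
    (C a * p * C b).coeff m = a * p.coeff m * b := by
  rw [coeff_mul_C, coeff_C_mul]

private theorem coeff_mul_mul {k : Type*} [Field k] {n : ℕ} (P Q : Matrix (Fin n) (Fin n) k)
    (A : Matrix (Fin n) (Fin n) k[X]) (m : ℕ) :
    (P.map C * A * Q.map C).map (fun p => p.coeff m) = P * A.map (fun p => p.coeff m) * Q := by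
  ext i j
  simp only [Matrix.map_apply, Matrix.mul_apply, finsetSum_coeff, Finset.sum_mul, coeff_C_mul_C]

theorem lemF {k : Type*} [Field k] (hk : Tsen3 k) {n : ℕ} (A : Matrix (Fin n) (Fin n) k[X])
    (hA : A.IsSymm) (h3 : X ^ 3 ∣ A.det) :
    ∃ v : Fin n → k, v ≠ 0 ∧ A.map (fun p => p.coeff 0) *ᵥ v = 0 ∧
      v ⬝ᵥ (A.map (fun p => p.coeff 1) *ᵥ v) = 0 := by
  classical
  set A0 := A.map (fun p => p.coeff 0) with hA0
  set A1 := A.map (fun p => p.coeff 1) with hA1
  have hA0s : A0ᵀ = A0 := by
    rw [hA0, ← Matrix.transpose_map, hA.eq]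
  obtain ⟨L, L', D, hD⟩ := Matrix.Pivot.exists_list_transvec_mul_mul_list_transvec_eq_diagonal A0
  set P := (L.map TransvectionStruct.toMatrix).prod with hP
  set Q := (L'.map TransvectionStruct.toMatrix).prod with hQ
  have hPd : P.det = 1 := TransvectionStruct.det_toMatrix_prod L
  have hQd : Q.det = 1 := TransvectionStruct.det_toMatrix_prod L'
  have hPi : ∀ x, P *ᵥ x = 0 → x = 0 := by
    intro x hx
    by_contra h
    have := Matrix.exists_mulVec_eq_zero_iff.1 ⟨x, h, hx⟩
    rw [hPd] at this
    exact one_ne_zero this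
  have hQi : ∀ x, Q *ᵥ x = 0 → x = 0 := by
    intro x hx
    by_contra h
    have := Matrix.exists_mulVec_eq_zero_iff.1 ⟨x, h, hx⟩
    rw [hQd] at this
    exact one_ne_zero this
  -- kernel vectors
  have hker : ∀ y : Fin n → k, (∀ j, D j ≠ 0 → y j = 0) → A0 *ᵥ (Q *ᵥ y) = 0 := by
    intro y hy
    apply hPi
    rw [Matrix.mulVec_mulVec, Matrix.mulVec_mulVec, hD]
    ext i
    rw [Matrix.mulVec_diagonal]
    by_cases h : D i = 0
    · simp [h]
    · simp [hy i h]
  by_cases hI : 3 ≤ (Finset.univ.filter fun j => D j = 0).card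
  · obtain ⟨T, hT, hTc⟩ := Finset.exists_subset_card_eq hI
    let e := T.equivFinOfCardEq hTc
    let w : Fin 3 → (Fin n → k) := fun s => Q *ᵥ Pi.single (e.symm s : Fin n) 1
    obtain ⟨x, hx0, hx⟩ := hk.on_vectors A1 w
    set y : Fin n → k := ∑ s, x s • Pi.single (e.symm s : Fin n) (1 : k) with hy
    have hw : (∑ s, x s • w s) = Q *ᵥ y := by
      rw [hy, Matrix.mulVec_sum]
      exact Finset.sum_congr rfl fun s _ => (Matrix.mulVec_smul _ _ _).symm
    have hye : ∀ s, y (e.symm s : Fin n) = x s := by
      intro s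
      rw [hy, Finset.sum_apply]
      rw [Finset.sum_eq_single s]
      · simp
      · intro t _ hts
        have : (e.symm s : Fin n) ≠ (e.symm t : Fin n) := fun h => hts (e.symm.injective
          (Subtype.ext h.symm))
        simp [this]
      · intro h
        exact absurd (Finset.mem_univ s) h
    refine ⟨Q *ᵥ y, ?_, ?_, ?_⟩
    · intro h
      have hy0 := hQi _ h
      apply hx0
      ext s
      rw [← hye s, hy0]
      rfl
    · apply hker
      intro j hj
      rw [hy, Finset.sum_apply]
      refine Finset.sum_eq_zero fun s _ => ?_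
      have : j ≠ (e.symm s : Fin n) := by
        rintro rfl
        exact hj (Finset.mem_filter.1 (hT (e.symm s).2)).2
      simp [this]
    · rw [← hw]
      exact hx
  · -- few zero entries
    set A' := P.map C * A * Q.map C with hA'
    have hA'0 : ∀ i j, (A' i j).coeff 0 = (Matrix.diagonal D) i j := by
      intro i j
      have := congrFun (congrFun (coeff_mul_mul P Q A 0) i) j
      rw [Matrix.map_apply] at this
      rw [hA', this, hD]
    have hA'1 : ∀ i j, (A' i j).coeff 1 = (P * A1 * Q) i j := by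
      intro i j
      have := congrFun (congrFun (coeff_mul_mul P Q A 1) i) j
      rw [Matrix.map_apply] at this
      rw [hA', this]
    set A'' : Matrix (Fin n) (Fin n) k[X] :=
      Matrix.of fun i j => if D j = 0 then divX (A' i j) else A' i j with hA''
    have hfac : A' = A'' * Matrix.diagonal (fun j => if D j = 0 then (X : k[X]) else 1) := by
      ext1 i j
      rw [Matrix.mul_diagonal, hA'', Matrix.of_apply]
      by_cases h : D j = 0
      · rw [if_pos h, if_pos h]
        have h0 : (A' i j).coeff 0 = 0 := by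
          rw [hA'0]
          by_cases hij : i = j
          · subst hij
            simp [h]
          · simp [hij]
        conv_lhs => rw [← divX_mul_X_add (A' i j)]
        rw [h0, C_0, add_zero]
      · rw [if_neg h, if_neg h, mul_one]
    have hdet : A.det = A''.det * X ^ (Finset.univ.filter fun j => D j = 0).card := by
      have h1 : A'.det = A.det := by
        rw [hA', Matrix.det_mul, Matrix.det_mul]
        have hPC : (P.map C).det = (C P.det : k[X]) := (RingHom.map_det C P).symm
        have hQC : (Q.map C).det = (C Q.det : k[X]) := (RingHom.map_det C Q).symm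
        rw [hPC, hQC, hPd, hQd, C_1, one_mul, mul_one]
      rw [← h1, hfac, Matrix.det_mul, Matrix.det_diagonal]
      congr 1
      rw [Finset.prod_ite, Finset.prod_const, Finset.prod_const_one, mul_one]
    have hX : X ∣ A''.det := by
      rw [hdet] at h3
      have hle : (Finset.univ.filter fun j => D j = 0).card ≤ 2 := by omega
      obtain ⟨d, hd⟩ : ∃ d, 3 = d + 1 + (Finset.univ.filter fun j => D j = 0).card :=
        ⟨2 - (Finset.univ.filter fun j => D j = 0).card, by omega⟩
      rw [hd, pow_add] at h3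
      have h4 : X ^ (d + 1) ∣ A''.det :=
        (mul_dvd_mul_iff_right (pow_ne_zero _ X_ne_zero)).1 h3
      exact (dvd_pow_self X (Nat.succ_ne_zero d)).trans h4
    have hdet0 : (A''.map (fun p => p.coeff 0)).det = 0 := by
      have h1 : (A''.map (fun p => p.coeff 0)).det = A''.det.coeff 0 := by
        have := RingHom.map_det (constantCoeff : k[X] →+* k) A''
        rw [constantCoeff_apply] at this
        rw [this]
        rfl
      rw [h1]
      exact X_dvd_iff.1 hX
    obtain ⟨x, hx0, hx⟩ := Matrix.exists_mulVec_eq_zero_iff.2 hdet0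
    set x2 : Fin n → k := fun j => if D j = 0 then x j else 0 with hx2
    set x1 : Fin n → k := fun j => if D j = 0 then 0 else x j with hx1
    have hsum : (P * A1 * Q) *ᵥ x2 + (Matrix.diagonal D) *ᵥ x1 = 0 := by
      rw [← hx]
      ext i
      simp only [Matrix.mulVec, dotProduct, Pi.add_apply, Matrix.map_apply]
      rw [← Finset.sum_add_distrib]
      refine Finset.sum_congr rfl fun j _ => ?_
      simp only [hx2, hx1, hA'', Matrix.of_apply]
      by_cases h : D j = 0
      · simp only [h, if_true]
        rw [coeff_divX, zero_add, hA'1]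
        ring
      · simp only [h, if_false]
        rw [hA'0]
        ring
    have h0 : A0 *ᵥ (Q *ᵥ x2) = 0 := hker x2 fun j hj => by simp [hx2, hj]
    have h1 : A1 *ᵥ (Q *ᵥ x2) + A0 *ᵥ (Q *ᵥ x1) = 0 := by
      apply hPi
      rw [Matrix.mulVec_add, Matrix.mulVec_mulVec, Matrix.mulVec_mulVec, Matrix.mulVec_mulVec,
        Matrix.mulVec_mulVec, hD]
      exact hsum
    refine ⟨Q *ᵥ x2, ?_, h0, ?_⟩
    · intro h
      have h2 := hQi _ h
      have h3 : x1 = 0 := by
        have h4 : Matrix.diagonal D *ᵥ x1 = 0 := by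
          rw [h2] at hsum
          simpa using hsum
        ext j
        have h5 := congrFun h4 j
        rw [Matrix.mulVec_diagonal] at h5
        by_cases hj : D j = 0
        · simp [hx1, hj]
        · exact (mul_eq_zero.1 h5).resolve_left hj
      apply hx0
      ext j
      have h4 := congrFun h2 j
      have h5 := congrFun h3 j
      by_cases hj : D j = 0
      · simpa [hx2, hj] using h4
      · simpa [hx1, hj] using h5
    · have h2 : A1 *ᵥ (Q *ᵥ x2) = - (A0 *ᵥ (Q *ᵥ x1)) := eq_neg_of_add_eq_zero_left h1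
      rw [h2, dotProduct_neg, Matrix.dotProduct_mulVec, ← Matrix.mulVec_transpose, hA0s, h0,
        zero_dotProduct, neg_zero]

end Pool.Agent.Helper89.PU
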