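import Pool.Agent.Helper29.TR.St.QuadZero
import Pool.Agent.Helper89.PU.LemF

set_option autoImplicit false

/-!
PU: Tsen's theorem for systems of quadratic forms over `C(x)`, and ternary quadratic forms over
finite extensions of `C(x)`.
-/

namespace Pool.Agent.Helper89.PU

open Polynomial Module Matrix

/-- polynomial with given coefficients -/
private noncomputable def pol (n : ℕ) : (Fin n → ℂ) →ₗ[ℂ] ℂ[X] :=
  ∑ i : Fin n, (LinearMap.proj i).smulRight ((X : ℂ[X]) ^ (i : ℕ))

private theorem pol_apply (n : ℕ) (v : Fin n → ℂ) :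
    pol n v = ∑ i : Fin n, v i • (X : ℂ[X]) ^ (i : ℕ) := by
  simp [pol, LinearMap.sum_apply]

private theorem pol_natDegree (n : ℕ) (v : Fin (n + 1) → ℂ) : (pol (n + 1) v).natDegree ≤ n := by
  rw [pol_apply]
  refine natDegree_sum_le_of_forall_le _ _ fun i _ => ?_
  refine (natDegree_smul_le _ _).trans ?_
  rw [natDegree_X_pow]
  omega

private theorem pol_coeff (n : ℕ) (v : Fin n → ℂ) (j : Fin n) : (pol n v).coeff j = v j := by
  rw [pol_apply, finsetSum_coeff]
  rw [Finset.sum_eq_single j]
  · simp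
  · intro i _ hij
    have : (j : ℕ) ≠ (i : ℕ) := fun h => hij (Fin.ext h.symm)
    simp [coeff_X_pow, this]
  · intro h
    exact absurd (Finset.mem_univ j) h

private theorem pol_eq_zero (n : ℕ) (v : Fin n → ℂ) (h : pol n v = 0) : v = 0 := by
  ext j
  rw [← pol_coeff n v j, h]
  simp

/-- the bilinear map in coefficients -/
private noncomputable def bet {p m : ℕ} (g : Fin p → Fin p → Fin m → ℂ[X]) (N M : ℕ) :
    (Fin p → Fin N → ℂ) →ₗ[ℂ] (Fin p → Fin N → ℂ) →ₗ[ℂ] (Fin m → Fin M → ℂ) :=
  LinearMap.mk₂ ℂ (fun v w => fun l j =>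
      (∑ a, ∑ b, g a b l * pol N (v a) * pol N (w b)).coeff (j : ℕ))
    (by
      intro v v' w
      ext l j
      simp only [Pi.add_apply, map_add, mul_add, add_mul, Finset.sum_add_distrib, coeff_add])
    (by
      intro c v w
      ext l j
      simp only [Pi.smul_apply, map_smul, mul_smul_comm, smul_mul_assoc, ← Finset.smul_sum,
        coeff_smul])
    (by
      intro v w w'
      ext l j
      simp only [Pi.add_apply, map_add, mul_add, Finset.sum_add_distrib, coeff_add])
    (by
      intro c v w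
      ext l j
      simp only [Pi.smul_apply, map_smul, mul_smul_comm, ← Finset.smul_sum, coeff_smul])

/-- TSEN for systems of quadratic forms over `C(x)` -/
theorem tsen_system {K : Type*} [Field K] [Algebra ℂ[X] K] [IsFractionRing ℂ[X] K]
    {E F : Type*} [AddCommGroup E] [Module K E] [FiniteDimensional K E]
    [AddCommGroup F] [Module K F] [FiniteDimensional K F] (b : E →ₗ[K] E →ₗ[K] F)
    (h : 2 * finrank K F < finrank K E) : ∃ x : E, x ≠ 0 ∧ b x x = 0 := by
  classical
  set p := finrank K E with hp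
  set m := finrank K F with hm
  let f : Basis (Fin p) K E := finBasis K E
  let e : Basis (Fin m) K F := finBasis K F
  let γ : Fin p × Fin p × Fin m → K := fun t => e.repr (b (f t.1) (f t.2.1)) t.2.2
  obtain ⟨D, hD⟩ := IsLocalization.exist_integer_multiples_of_finite (nonZeroDivisors ℂ[X]) γ
  choose g' hg' using hD
  let g : Fin p → Fin p → Fin m → ℂ[X] := fun a b l => g' (a, b, l)
  let d : ℕ := ∑ a, ∑ b, ∑ l, (g a b l).natDegree
  have hd : ∀ a b l, (g a b l).natDegree ≤ d := by
    intro a b l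
    have h1 : (g a b l).natDegree ≤ ∑ l, (g a b l).natDegree :=
      Finset.single_le_sum (f := fun l => (g a b l).natDegree) (fun _ _ => Nat.zero_le _)
        (Finset.mem_univ l)
    have h2 : ∑ l, (g a b l).natDegree ≤ ∑ b, ∑ l, (g a b l).natDegree :=
      Finset.single_le_sum (f := fun b => ∑ l, (g a b l).natDegree) (fun _ _ => Nat.zero_le _)
        (Finset.mem_univ b)
    have h3 : ∑ b, ∑ l, (g a b l).natDegree ≤ d :=
      Finset.single_le_sum (f := fun a => ∑ b, ∑ l, (g a b l).natDegree)
        (fun _ _ => Nat.zero_le _) (Finset.mem_univ a)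
    exact (h1.trans h2).trans h3
  let N : ℕ := m * d
  let M : ℕ := 2 * N + d + 1
  have hfr : finrank ℂ (Fin m → Fin M → ℂ) < finrank ℂ (Fin p → Fin (N + 1) → ℂ) := by
    have e1 : ∀ a b : ℕ, finrank ℂ (Fin a → Fin b → ℂ) = a * b := fun a b => by
      rw [finrank_pi_fintype]
      simp
    rw [e1, e1]
    have h1 : (2 * m + 1) * (N + 1) ≤ p * (N + 1) := Nat.mul_le_mul_right _ h
    refine lt_of_lt_of_le ?_ h1
    have h2 : m * M + (m * d + m + 1) = (2 * m + 1) * (N + 1) + m * d := by
      simp only [M, N]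
      ring
    omega
  obtain ⟨x, hx0, hx⟩ := Pool.Agent.Helper29.TR.quad_zero (bet g (N + 1) M) hfr
  let P : Fin p → ℂ[X] := fun a => pol (N + 1) (x a)
  have hP : ∀ a, (P a).natDegree ≤ N := fun a => pol_natDegree N (x a)
  have hzero : ∀ l, ∑ a, ∑ b, g a b l * P a * P b = 0 := by
    intro l
    ext j
    rw [coeff_zero]
    by_cases hj : j < M
    · exact congrFun (congrFun hx l) ⟨j, hj⟩
    · apply coeff_eq_zero_of_natDegree_lt
      refine lt_of_le_of_lt (b := d + N + N) ?_ (by simp only [M] at hj; omega)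
      refine natDegree_sum_le_of_forall_le _ _ fun a _ => ?_
      refine natDegree_sum_le_of_forall_le _ _ fun b _ => ?_
      exact natDegree_mul_le_of_le (natDegree_mul_le_of_le (hd a b l) (hP a)) (hP b)
  let A := algebraMap ℂ[X] K
  have hA : Function.Injective A := IsFractionRing.injective ℂ[X] K
  refine ⟨∑ a, A (P a) • f a, ?_, ?_⟩
  · intro h0
    apply hx0
    funext a
    have h1 := Fintype.linearIndependent_iff.1 f.linearIndependent (fun a => A (P a)) h0 a
    exact pol_eq_zero _ _ (hA (by rw [h1, map_zero]))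
  · apply e.repr.injective
    rw [map_zero]
    ext l
    have hDne : A D ≠ 0 := by
      rw [Ne, map_eq_zero_iff A hA]
      exact nonZeroDivisors.coe_ne_zero D
    have h1 : e.repr (b (∑ a, A (P a) • f a) (∑ a, A (P a) • f a)) l =
        ∑ a, ∑ c, A (P a) * A (P c) * γ (a, c, l) := by
      simp only [map_sum, map_smul, LinearMap.sum_apply, LinearMap.smul_apply,
        Finsupp.coe_finsetSum, Finset.sum_apply, Finsupp.smul_apply, smul_eq_mul, Finset.mul_sum]
      rw [Finset.sum_comm]
      refine Finset.sum_congr rfl fun a _ => Finset.sum_congr rfl fun c _ => ?_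
      simp only [γ]
      ring
    rw [h1, Finsupp.coe_zero, Pi.zero_apply]
    have h2 : A D * ∑ a, ∑ c, A (P a) * A (P c) * γ (a, c, l) = 0 := by
      rw [← map_zero A, ← hzero l, map_sum, Finset.mul_sum]
      refine Finset.sum_congr rfl fun a _ => ?_
      rw [map_sum, Finset.mul_sum]
      refine Finset.sum_congr rfl fun c _ => ?_
      have h3 : A (g a c l) = A D * γ (a, c, l) := by
        have := hg' (a, c, l)
        rw [Algebra.smul_def] at this
        exact this
      rw [map_mul, map_mul, h3]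
      ring
    exact (mul_eq_zero.1 h2).resolve_left hDne

/-- every ternary quadratic form over `k` is isotropic (symmetric version) -/
def Tern (k : Type*) [Field k] : Prop :=
  ∀ G : Matrix (Fin 3) (Fin 3) k, G.IsSymm → ∃ v : Fin 3 → k, v ≠ 0 ∧ v ⬝ᵥ (G *ᵥ v) = 0

theorem Tsen3.tern {k : Type*} [Field k] (h : Tsen3 k) : Tern k := fun G _ => h G

/-- TSEN for finite extensions of `C(x)` -/
theorem tsen3_finite (K : Type*) [Field K] [Algebra ℂ[X] K] [IsFractionRing ℂ[X] K]
    (L : Type*) [Field L] [Algebra K L] [FiniteDimensional K L] : Tsen3 L := by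
  intro G
  let b : (Fin 3 → L) →ₗ[K] (Fin 3 → L) →ₗ[K] L :=
    LinearMap.mk₂ K (fun v w => v ⬝ᵥ (G.mulVec w))
      (fun v v' w => add_dotProduct _ _ _)
      (fun c v w => smul_dotProduct _ _ _)
      (fun v w w' => by rw [Matrix.mulVec_add, dotProduct_add])
      (fun c v w => by rw [Matrix.mulVec_smul, dotProduct_smul])
  have hb : 2 * finrank K L < finrank K (Fin 3 → L) := by
    rw [finrank_pi_fintype]
    simp only [Finset.sum_const, Finset.card_univ, Fintype.card_fin, smul_eq_mul]
    have : 0 < finrank K L := finrank_pos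
    omega
  exact tsen_system b hb

/-- TSEN for `C(x)` -/
theorem tsen3_base (K : Type*) [Field K] [Algebra ℂ[X] K] [IsFractionRing ℂ[X] K] : Tsen3 K :=
  tsen3_finite K K

theorem tern_finite (K : Type*) [Field K] [Algebra ℂ[X] K] [IsFractionRing ℂ[X] K]
    (L : Type*) [Field L] [Algebra K L] [FiniteDimensional K L] : Tern L :=
  (tsen3_finite K L).tern

theorem tern_base (K : Type*) [Field K] [Algebra ℂ[X] K] [IsFractionRing ℂ[X] K] : Tern K :=
  (tsen3_base K).tern

/-- TSEN for the residue fields of `C(x)[y]` -/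
theorem tsen3_adjoinRoot (K : Type*) [Field K] [Algebra ℂ[X] K] [IsFractionRing ℂ[X] K]
    (π : K[X]) [Fact (Irreducible π)] : Tsen3 (AdjoinRoot π) := by
  have : FiniteDimensional K (AdjoinRoot π) :=
    (AdjoinRoot.powerBasis (Fact.out : Irreducible π).ne_zero).finite
  exact tsen3_finite K (AdjoinRoot π)

theorem tern_adjoinRoot (K : Type*) [Field K] [Algebra ℂ[X] K] [IsFractionRing ℂ[X] K]
    (π : K[X]) [Fact (Irreducible π)] : Tern (AdjoinRoot π) :=
  (tsen3_adjoinRoot K π).tern

/-- TSEN for the residue fields of `C(x)[y]`, quotient form: `G` is a matrix over `K[X]` -/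
theorem tsen3_mod (K : Type*) [Field K] [Algebra ℂ[X] K] [IsFractionRing ℂ[X] K]
    (π : K[X]) (hπ : Prime π) (G : Matrix (Fin 3) (Fin 3) K[X]) :
    ∃ v : Fin 3 → K[X], (∃ i, ¬ π ∣ v i) ∧ π ∣ v ⬝ᵥ (G.mulVec v) := by
  have : Fact (Irreducible π) := ⟨hπ.irreducible⟩
  obtain ⟨w, hw0, hw⟩ := tsen3_adjoinRoot K π (G.map (AdjoinRoot.mk π))
  choose v hv using fun i => AdjoinRoot.mk_surjective (g := π) (w i)
  refine ⟨v, ?_, ?_⟩
  · by_contra h
    push Not at h
    apply hw0
    ext i
    rw [← hv i, AdjoinRoot.mk_eq_zero.2 (h i)]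
    rfl
  · rw [← AdjoinRoot.mk_eq_zero, ← hw]
    simp only [dotProduct, Matrix.mulVec, map_sum, map_mul, Matrix.map_apply, hv]

end Pool.Agent.Helper89.PU
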