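import Pool.Agent.Helper89.PU.LemF

set_option autoImplicit false

/-!
PU: a unimodular symmetric matrix of size at least `4` over `k[X]` is isotropic if every ternary
quadratic form over `k` is.
-/

namespace Pool.Agent.Helper89.PU

open Polynomial Matrix

/-- degree bounds -/
def Adm {k : Type*} [Field k] {n : ℕ} (S : Matrix (Fin n) (Fin n) k[X]) (b : Fin n → ℕ) : Prop :=
  ∀ i j, (S i j).natDegree ≤ b i + b j

theorem coeff_shift {k : Type*} [Field k] (p : k[X]) (N e s : ℕ) (hp : p.natDegree ≤ N)
    (hs : s ≤ N + e) : (X ^ e * p).coeff (N + e - s) = (reflect N p).coeff s := by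
  rw [coeff_reflect]
  by_cases h : s ≤ N
  · rw [revAt_le h]
    have : N + e - s = (N - s) + e := by omega
    rw [this, coeff_X_pow_mul]
  · have h' : N < s := not_le.1 h
    rw [revAt_eq_self_of_lt h']
    rw [coeff_eq_zero_of_natDegree_lt (lt_of_le_of_lt hp h')]
    rw [coeff_X_pow_mul', if_neg (by omega)]

/-- a constant vector supported on the indices with bound zero -/
theorem iso_const {k : Type*} [Field k] {n : ℕ} {S : Matrix (Fin n) (Fin n) k[X]} {b : Fin n → ℕ}
    (hb : Adm S b) (v : Fin n → k) (hv : ∀ j, b j ≠ 0 → v j = 0)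
    (h : v ⬝ᵥ (S.map (fun p => p.coeff 0) *ᵥ v) = 0) :
    (fun i => C (v i)) ⬝ᵥ (S *ᵥ fun i => C (v i)) = 0 := by
  have h1 : (fun i => C (v i)) ⬝ᵥ (S *ᵥ fun i => C (v i)) =
      C (v ⬝ᵥ (S.map (fun p => p.coeff 0) *ᵥ v)) := by
    simp only [dotProduct, Matrix.mulVec, map_sum, map_mul, Matrix.map_apply]
    refine Finset.sum_congr rfl fun i _ => ?_
    rw [Finset.mul_sum, Finset.mul_sum]
    refine Finset.sum_congr rfl fun j _ => ?_
    by_cases hi : b i = 0
    · by_cases hj : b j = 0
      · have h2 := hb i j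
        rw [hi, hj] at h2
        rw [← eq_C_of_natDegree_le_zero h2]
      · rw [hv j hj]
        simp
    · rw [hv i hi]
      simp
  rw [h1, h, C_0]

/-- the reflected matrix -/
noncomputable def Refl {k : Type*} [Field k] {n : ℕ} (S : Matrix (Fin n) (Fin n) k[X])
    (b : Fin n → ℕ) : Matrix (Fin n) (Fin n) k[X] :=
  Matrix.of fun i j => reflect (b i + b j) (S i j)

theorem Refl_symm {k : Type*} [Field k] {n : ℕ} {S : Matrix (Fin n) (Fin n) k[X]}
    (hS : S.IsSymm) (b : Fin n → ℕ) : (Refl S b).IsSymm := by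
  ext i j
  simp only [Matrix.transpose_apply, Refl, Matrix.of_apply]
  rw [hS.apply, add_comm]

theorem Refl_det {k : Type*} [Field k] {n : ℕ} {S : Matrix (Fin n) (Fin n) k[X]}
    {b : Fin n → ℕ} (hb : Adm S b) {c : k} (hc : S.det = C c) :
    (Refl S b).det = C c * X ^ (2 * ∑ i, b i) := by
  -- work in the field of rational functions
  let F := RatFunc k
  let z : F := RatFunc.X
  have hz : z ≠ 0 := RatFunc.X_ne_zero
  let y : F := z⁻¹
  have hy : y ≠ 0 := inv_ne_zero hz
  let _ : Invertible y := invertibleOfNonzero hy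
  have hinv : ⅟y = z := by
    rw [invOf_eq_inv]
    exact inv_inv z
  let i : k →+* F := algebraMap k F
  have hev : ∀ p : k[X], eval₂ i z p = algebraMap k[X] F p := by
    intro p
    induction p using Polynomial.induction_on' with
    | add p q hp hq => rw [eval₂_add, hp, hq, map_add]
    | monomial m a =>
      rw [eval₂_monomial, ← C_mul_X_pow_eq_monomial, map_mul, map_pow]
      congr 1
  have hent : ∀ r s, algebraMap k[X] F (Refl S b r s) * (y ^ b r * y ^ b s) =
      eval₂ i y (S r s) := by
    intro r s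
    have := eval₂_reflect_mul_pow i y (b r + b s) (S r s) (hb r s)
    rw [hinv, pow_add] at this
    rw [← hev]
    exact this
  have hmat : Matrix.diagonal (fun r => y ^ b r) * (Refl S b).map (algebraMap k[X] F) *
      Matrix.diagonal (fun r => y ^ b r) = S.map (eval₂RingHom i y) := by
    ext r s
    rw [Matrix.mul_diagonal, Matrix.diagonal_mul, Matrix.map_apply, Matrix.map_apply]
    rw [coe_eval₂RingHom, ← hent r s]
    ring
  have hd := congrArg Matrix.det hmat
  rw [Matrix.det_mul, Matrix.det_mul, Matrix.det_diagonal] at hd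
  have h1 : (S.map (eval₂RingHom i y)).det = i c := by
    have h2 := RingHom.map_det (eval₂RingHom i y) S
    rw [hc, coe_eval₂RingHom, eval₂_C] at h2
    rw [h2]
    rfl
  have h2 : ((Refl S b).map (algebraMap k[X] F)).det = algebraMap k[X] F (Refl S b).det :=
    (RingHom.map_det (algebraMap k[X] F) (Refl S b)).symm
  rw [h1, h2, Finset.prod_pow_eq_pow_sum] at hd
  apply RatFunc.algebraMap_injective k
  rw [map_mul, map_pow, RatFunc.algebraMap_X]
  have h3 : (y ^ ∑ r, b r) * (z ^ ∑ r, b r) = 1 := by
    rw [← mul_pow, inv_mul_cancel₀ hz, one_pow]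
  have h4 : algebraMap k[X] F (C c) = i c := RatFunc.algebraMap_C c
  rw [h4, ← hd]
  have h5 : RatFunc.X ^ (2 * ∑ r, b r) = (z ^ ∑ r, b r) * (z ^ ∑ r, b r) := by
    rw [two_mul, pow_add]
  rw [h5]
  calc algebraMap k[X] F (Refl S b).det
      = algebraMap k[X] F (Refl S b).det * ((y ^ ∑ r, b r) * (z ^ ∑ r, b r)) *
          ((y ^ ∑ r, b r) * (z ^ ∑ r, b r)) := by rw [h3, mul_one, mul_one]
    _ = _ := by ring

theorem natDegree_le_pred {k : Type*} [Field k] {p : k[X]} {N : ℕ} (h : p.natDegree ≤ N)
    (h0 : p.coeff N = 0) : p.natDegree ≤ N - 1 := by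
  rw [natDegree_le_iff_coeff_eq_zero] at *
  intro m hm
  by_cases h1 : m = N
  · rw [h1, h0]
  · exact h m (by omega)

/-- the columns of the base change -/
noncomputable def Ecl {k : Type*} [Field k] {n : ℕ} (v : Fin n → k) (b : Fin n → ℕ) (i0 : Fin n)
    (i : Fin n) : Fin n → k[X] :=
  if i = i0 then fun l => C (v l) * X ^ (b i0 - b l) else Pi.single i 1

/-- the base change -/
noncomputable def Emt {k : Type*} [Field k] {n : ℕ} (v : Fin n → k) (b : Fin n → ℕ) (i0 : Fin n) :
    Matrix (Fin n) (Fin n) k[X] :=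
  Matrix.of fun l i => Ecl v b i0 i l

theorem Emt_entry {k : Type*} [Field k] {n : ℕ} (S : Matrix (Fin n) (Fin n) k[X]) (v : Fin n → k)
    (b : Fin n → ℕ) (i0 i j : Fin n) :
    ((Emt v b i0)ᵀ * S * Emt v b i0) i j = Ecl v b i0 i ⬝ᵥ (S *ᵥ Ecl v b i0 j) := by
  rw [Matrix.mul_assoc, Matrix.mul_apply, dotProduct]
  refine Finset.sum_congr rfl fun l _ => ?_
  rfl

theorem Emt_det {k : Type*} [Field k] {n : ℕ} (v : Fin n → k) (b : Fin n → ℕ) (i0 : Fin n) :
    (Emt v b i0).det = C (v i0) := by
  have h : Emt v b i0 = (1 : Matrix (Fin n) (Fin n) k[X]).updateCol i0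
      (fun l => C (v l) * X ^ (b i0 - b l)) := by
    ext1 l i
    rw [Matrix.updateCol_apply, Emt, Matrix.of_apply, Ecl]
    by_cases hi : i = i0
    · rw [if_pos hi, if_pos hi]
    · rw [if_neg hi, if_neg hi, Matrix.one_apply, Pi.single_apply]
      
  rw [h, ← Matrix.cramer_apply, Matrix.cramer_one]
  simp

theorem raise {k : Type*} [Field k] {n : ℕ} {S : Matrix (Fin n) (Fin n) k[X]} (hS : S.IsSymm)
    {b : Fin n → ℕ} (hb : Adm S b) (v : Fin n → k)
    (h0 : (Refl S b).map (fun p => p.coeff 0) *ᵥ v = 0)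
    (h1 : v ⬝ᵥ ((Refl S b).map (fun p => p.coeff 1) *ᵥ v) = 0) (i0 : Fin n)
    (hmax : ∀ j, v j ≠ 0 → b j ≤ b i0) (hpos : 1 ≤ b i0) :
    Adm ((Emt v b i0)ᵀ * S * Emt v b i0) (Function.update b i0 (b i0 - 1)) := by
  have hsym : ((Emt v b i0)ᵀ * S * Emt v b i0).IsSymm := by
    rw [Matrix.IsSymm, Matrix.transpose_mul, Matrix.transpose_mul, Matrix.transpose_transpose,
      hS.eq, Matrix.mul_assoc]
  -- entries
  have he1 : ∀ i, i ≠ i0 → Ecl v b i0 i = Pi.single i 1 := fun i hi => by rw [Ecl, if_neg hi]
  have he2 : Ecl v b i0 i0 = fun l => C (v l) * X ^ (b i0 - b l) := by rw [Ecl, if_pos rfl]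
  have hterm : ∀ i m, (S i m * (C (v m) * X ^ (b i0 - b m))).natDegree ≤ b i + b i0 ∧
      (S i m * (C (v m) * X ^ (b i0 - b m))).coeff (b i + b i0) =
        (Refl S b i m).coeff 0 * v m := by
    intro i m
    by_cases hm : v m = 0
    · rw [hm]
      simp
    · have hle := hmax m hm
      have hre : S i m * (C (v m) * X ^ (b i0 - b m)) =
          C (v m) * (X ^ (b i0 - b m) * S i m) := by ring
      rw [hre]
      constructor
      · refine (natDegree_C_mul_le _ _).trans ?_
        refine (natDegree_mul_le).trans ?_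
        rw [natDegree_X_pow]
        have := hb i m
        omega
      · rw [coeff_C_mul]
        have := coeff_shift (S i m) (b i + b m) (b i0 - b m) 0 (hb i m) (Nat.zero_le _)
        have hN : b i + b m + (b i0 - b m) - 0 = b i + b i0 := by omega
        rw [hN] at this
        rw [this, mul_comm]
        rfl
  have hoff : ∀ i, i ≠ i0 → (((Emt v b i0)ᵀ * S * Emt v b i0) i i0).natDegree ≤
      b i + (b i0 - 1) := by
    intro i hi
    rw [Emt_entry, he1 i hi, he2, single_dotProduct, one_mul]
    have h2 : b i + (b i0 - 1) = b i + b i0 - 1 := by omega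
    rw [h2]
    apply natDegree_le_pred
    · rw [Matrix.mulVec, dotProduct]
      exact natDegree_sum_le_of_forall_le _ _ fun m _ => (hterm i m).1
    · rw [Matrix.mulVec, dotProduct, finsetSum_coeff]
      have h3 := congrFun h0 i
      rw [Matrix.mulVec, dotProduct] at h3
      rw [Pi.zero_apply] at h3
      rw [← h3]
      exact Finset.sum_congr rfl fun m _ => (hterm i m).2
  have hterm2 : ∀ l m, ∀ s ≤ 1, ((C (v l) * X ^ (b i0 - b l)) * (S l m * (C (v m) *
      X ^ (b i0 - b m)))).natDegree ≤ 2 * b i0 ∧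
      ((C (v l) * X ^ (b i0 - b l)) * (S l m * (C (v m) * X ^ (b i0 - b m)))).coeff
        (2 * b i0 - s) = v l * ((Refl S b l m).coeff s * v m) := by
    intro l m s hs
    by_cases hl : v l = 0
    · rw [hl]
      simp
    by_cases hm : v m = 0
    · rw [hm]
      simp
    have hle := hmax m hm
    have hle' := hmax l hl
    have hre : (C (v l) * X ^ (b i0 - b l)) * (S l m * (C (v m) * X ^ (b i0 - b m))) =
          C (v l * v m) * (X ^ ((b i0 - b l) + (b i0 - b m)) * S l m) := by
      rw [pow_add, C_mul]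
      ring
    rw [hre]
    constructor
    · refine (natDegree_C_mul_le _ _).trans ?_
      refine (natDegree_mul_le).trans ?_
      rw [natDegree_X_pow]
      have := hb l m
      omega
    · rw [coeff_C_mul]
      have := coeff_shift (S l m) (b l + b m) ((b i0 - b l) + (b i0 - b m)) s (hb l m)
        (by omega)
      have hN : b l + b m + ((b i0 - b l) + (b i0 - b m)) - s = 2 * b i0 - s := by omega
      rw [hN] at this
      rw [this]
      have h5 : Refl S b l m = reflect (b l + b m) (S l m) := rfl
      rw [h5]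
      ring
  have hdiag : (((Emt v b i0)ᵀ * S * Emt v b i0) i0 i0).natDegree ≤
      (b i0 - 1) + (b i0 - 1) := by
    rw [Emt_entry, he2]
    have h2 : (b i0 - 1) + (b i0 - 1) = 2 * b i0 - 1 - 1 := by omega
    rw [h2]
    have hco : ∀ s ≤ 1, ((fun l => C (v l) * X ^ (b i0 - b l)) ⬝ᵥ
        (S *ᵥ fun l => C (v l) * X ^ (b i0 - b l))).coeff (2 * b i0 - s) =
        v ⬝ᵥ ((Refl S b).map (fun p => p.coeff s) *ᵥ v) := by
      intro s hs
      simp only [dotProduct, Matrix.mulVec, finsetSum_coeff, Finset.mul_sum, Matrix.map_apply]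
      exact Finset.sum_congr rfl fun l _ => Finset.sum_congr rfl fun m _ => (hterm2 l m s hs).2
    apply natDegree_le_pred
    · apply natDegree_le_pred
      · simp only [dotProduct, Matrix.mulVec, Finset.mul_sum]
        exact natDegree_sum_le_of_forall_le _ _ fun l _ =>
          natDegree_sum_le_of_forall_le _ _ fun m _ => (hterm2 l m 0 (by omega)).1
      · have := hco 0 (by omega)
        rw [Nat.sub_zero] at this
        rw [this, h0, dotProduct_zero]
    · rw [hco 1 le_rfl, h1]
  intro i j
  by_cases hi : i = i0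
  · by_cases hj : j = i0
    · subst hi
      subst hj
      rw [Function.update_self]
      exact hdiag
    · subst hi
      rw [Function.update_self, Function.update_of_ne hj, ← hsym.apply, add_comm]
      exact hoff j hj
  · by_cases hj : j = i0
    · subst hj
      rw [Function.update_self, Function.update_of_ne hi]
      exact hoff i hi
    · rw [Function.update_of_ne hi, Function.update_of_ne hj, Emt_entry, he1 i hi, he1 j hj,
        single_dotProduct, one_mul, Matrix.mulVec_single_one]
      exact hb i j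

theorem isotropic_aux {k : Type*} [Field k] (hk : Tsen3 k) {n : ℕ} (hn : 4 ≤ n) (N : ℕ) :
    ∀ (S : Matrix (Fin n) (Fin n) k[X]) (b : Fin n → ℕ), S.IsSymm → Adm S b → ∑ i, b i = N →
    (∃ c : k, c ≠ 0 ∧ S.det = C c) → ∃ v : Fin n → k[X], v ≠ 0 ∧ v ⬝ᵥ (S *ᵥ v) = 0 := by
  induction N using Nat.strong_induction_on with
  | _ N ih =>
  classical
  intro S b hS hb hN ⟨c, hc0, hc⟩
  by_cases hN2 : N ≤ 1
  · -- at least three indices with bound zero
    have hcard : 3 ≤ (Finset.univ.filter fun j => b j = 0).card := by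
      have h1 : (Finset.univ.filter fun j => ¬ b j = 0).card ≤ ∑ i, b i := by
        rw [Finset.card_filter]
        refine Finset.sum_le_sum fun i _ => ?_
        split_ifs <;> omega
      have h2 := Finset.card_filter_add_card_filter_not (s := (Finset.univ : Finset (Fin n)))
        (fun j => b j = 0)
      rw [Finset.card_univ, Fintype.card_fin] at h2
      omega
    obtain ⟨T, hT, hTc⟩ := Finset.exists_subset_card_eq hcard
    let e := T.equivFinOfCardEq hTc
    obtain ⟨x, hx0, hx⟩ := hk.on_vectors (S.map (fun p => p.coeff 0))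
      (fun s => Pi.single (e.symm s : Fin n) 1)
    set y : Fin n → k := ∑ s, x s • Pi.single (e.symm s : Fin n) (1 : k) with hy
    have hye : ∀ s, y (e.symm s : Fin n) = x s := by
      intro s
      rw [hy, Finset.sum_apply]
      rw [Finset.sum_eq_single s]
      · simp
      · intro t _ hts
        have : (e.symm s : Fin n) ≠ (e.symm t : Fin n) := fun h => hts (e.symm.injective
          (Subtype.ext h.symm))
        simp [this]
      · intro h
        exact absurd (Finset.mem_univ s) h
    refine ⟨fun i => C (y i), ?_, ?_⟩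
    · intro h
      apply hx0
      ext s
      have := congrFun h (e.symm s : Fin n)
      rw [← hye s]
      exact C_eq_zero.1 this
    · apply iso_const hb y _ hx
      intro j hj
      rw [hy, Finset.sum_apply]
      refine Finset.sum_eq_zero fun s _ => ?_
      have : j ≠ (e.symm s : Fin n) := by
        rintro rfl
        exact hj (Finset.mem_filter.1 (hT (e.symm s).2)).2
      simp [this]
  · have h3 : X ^ 3 ∣ (Refl S b).det := by
      rw [Refl_det hb hc, hN]
      exact (pow_dvd_pow X (by omega)).trans (Dvd.intro_left _ rfl)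
    obtain ⟨v, hv0, hv1, hv2⟩ := lemF hk (Refl S b) (Refl_symm hS b) h3
    have hne : (Finset.univ.filter fun j => v j ≠ 0).Nonempty := by
      by_contra h
      rw [Finset.not_nonempty_iff_eq_empty, Finset.filter_eq_empty_iff] at h
      apply hv0
      ext j
      have := h (Finset.mem_univ j)
      simpa using this
    obtain ⟨i0, hi0, hmax⟩ := Finset.exists_max_image _ b hne
    have hvi : v i0 ≠ 0 := (Finset.mem_filter.1 hi0).2
    have hmax' : ∀ j, v j ≠ 0 → b j ≤ b i0 := fun j hj =>
      hmax j (Finset.mem_filter.2 ⟨Finset.mem_univ j, hj⟩)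
    by_cases hb0 : b i0 = 0
    · refine ⟨fun i => C (v i), ?_, ?_⟩
      · intro h
        exact hvi (C_eq_zero.1 (congrFun h i0))
      · have hv3 : ∀ j, b j ≠ 0 → v j = 0 := by
          intro j hj
          by_contra h
          have := hmax' j h
          omega
        apply iso_const hb v hv3
        have h5 : v ⬝ᵥ (S.map (fun p => p.coeff 0) *ᵥ v) =
            v ⬝ᵥ ((Refl S b).map (fun p => p.coeff 0) *ᵥ v) := by
          simp only [dotProduct, Matrix.mulVec, Matrix.map_apply]
          refine Finset.sum_congr rfl fun l _ => ?_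
          by_cases hl : b l = 0
          · congr 1
            refine Finset.sum_congr rfl fun m _ => ?_
            by_cases hm : b m = 0
            · congr 1
              have h6 : Refl S b l m = reflect (b l + b m) (S l m) := rfl
              rw [h6, hl, hm, coeff_reflect]
              rfl
            · rw [hv3 m hm, mul_zero, mul_zero]
          · rw [hv3 l hl, zero_mul, zero_mul]
        rw [h5, hv1, dotProduct_zero]
    · have hr := raise hS hb v hv1 hv2 i0 hmax' (Nat.one_le_iff_ne_zero.2 hb0)
      have hsym : ((Emt v b i0)ᵀ * S * Emt v b i0).IsSymm := by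
        rw [Matrix.IsSymm, Matrix.transpose_mul, Matrix.transpose_mul, Matrix.transpose_transpose,
          hS.eq, Matrix.mul_assoc]
      have hsum : ∑ i, Function.update b i0 (b i0 - 1) i = N - 1 := by
        rw [Finset.sum_update_of_mem (Finset.mem_univ i0)]
        have h7 := Finset.sum_erase_add Finset.univ b (Finset.mem_univ i0)
        rw [← hN, ← h7, Finset.sdiff_singleton_eq_erase]
        omega
      obtain ⟨w, hw0, hw⟩ := ih (N - 1) (by omega) _ _ hsym hr hsum
        ⟨v i0 * c * v i0, mul_ne_zero (mul_ne_zero hvi hc0) hvi, by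
          rw [Matrix.det_mul, Matrix.det_mul, Matrix.det_transpose, Emt_det, hc, C_mul, C_mul]⟩
      refine ⟨Emt v b i0 *ᵥ w, ?_, ?_⟩
      · intro h
        have h8 := Matrix.exists_mulVec_eq_zero_iff.1 ⟨w, hw0, h⟩
        rw [Emt_det] at h8
        exact hvi (C_eq_zero.1 h8)
      · rw [← hw, Matrix.mul_assoc, ← Matrix.mulVec_mulVec, Matrix.dotProduct_mulVec w,
          Matrix.vecMul_transpose, Matrix.mulVec_mulVec]

/-- PURITY, isotropy part -/
theorem isotropic_of_unimodular {k : Type*} [Field k] (hk : Tsen3 k) {n : ℕ} (hn : 4 ≤ n)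
    (S : Matrix (Fin n) (Fin n) k[X]) (hS : S.IsSymm) (hd : ∃ c : k, c ≠ 0 ∧ S.det = C c) :
    ∃ v : Fin n → k[X], v ≠ 0 ∧ v ⬝ᵥ (S *ᵥ v) = 0 := by
  refine isotropic_aux hk hn _ S (fun _ => ∑ i, ∑ j, (S i j).natDegree) hS ?_ rfl hd
  intro i j
  have h1 : (S i j).natDegree ≤ ∑ j, (S i j).natDegree :=
    Finset.single_le_sum (f := fun j => (S i j).natDegree) (fun _ _ => Nat.zero_le _)
      (Finset.mem_univ j)
  have h2 : ∑ j, (S i j).natDegree ≤ ∑ i, ∑ j, (S i j).natDegree :=
    Finset.single_le_sum (f := fun i => ∑ j, (S i j).natDegree) (fun _ _ => Nat.zero_le _)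
      (Finset.mem_univ i)
  exact (h1.trans h2).trans (Nat.le_add_right _ _)

end Pool.Agent.Helper89.PU
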